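import Pool.Agent.Y832.AU.K.Fin

/-!
# Normal biorthogonal systems in renormings of `c₀(ω₁)` are countable, real and complex scalars
-/

set_option autoImplicit false

open Set Filter Topology Pool.Agent.Helper539.Auer Pool.Agent.Y832.AU Pool.Agent.Y832.AU.K
open scoped BoundedContinuousFunction ZeroAtInfty

universe u

namespace Pool.Agent.Results.MP_735d18_an.CountableNormalSystems

variable {𝕜 : Type} [RCLike 𝕜]

/-- `(x i, f i)` is an extended biorthogonal system indexed by an arbitrary type. -/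
def Biorthogonal {E : Type} [NormedAddCommGroup E] [NormedSpace 𝕜 E] {I : Type u}
    (x : I → E) (f : I → (E →L[𝕜] 𝕜)) : Prop :=
  (∀ i, f i (x i) = 1) ∧ ∀ i j, i ≠ j → f i (x j) = 0

/-- All vectors and all functionals have norm one. -/
def Normal {E : Type} [NormedAddCommGroup E] [NormedSpace 𝕜 E] {I : Type u}
    (x : I → E) (f : I → (E →L[𝕜] 𝕜)) : Prop :=
  (∀ i, ‖x i‖ = 1) ∧ ∀ i, ‖f i‖ = 1

/-- The family of functionals is total: only the zero vector is annihilated by all of them. -/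
def Total {E : Type} [NormedAddCommGroup E] [NormedSpace 𝕜 E] {I : Type u}
    (f : I → (E →L[𝕜] 𝕜)) : Prop :=
  ∀ y : E, (∀ i, f i y = 0) → y = 0

/-- The functional attains its norm at a vector of norm one. -/
def NormAttaining {E : Type} [NormedAddCommGroup E] [NormedSpace 𝕜 E] (g : E →L[𝕜] 𝕜) : Prop :=
  ∃ u : E, ‖u‖ = 1 ∧ ‖g u‖ = ‖g‖

theorem rotate {E : Type} [NormedAddCommGroup E] [NormedSpace 𝕜 E] (g : E →L[𝕜] 𝕜)
    (hg : NormAttaining g) : ∃ u : E, ‖u‖ = 1 ∧ g u = ((‖g‖ : ℝ) : 𝕜) := by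
  obtain ⟨u, hu, hgu⟩ := hg
  by_cases h0 : g u = 0
  · refine ⟨u, hu, ?_⟩
    rw [h0, norm_zero] at hgu
    rw [h0, ← hgu, RCLike.ofReal_zero]
  · have hpos : 0 < ‖g u‖ := norm_pos_iff.2 h0
    have hne : ((‖g u‖ : ℝ) : 𝕜) ≠ 0 := by
      rw [Ne, RCLike.ofReal_eq_zero]
      exact hpos.ne'
    refine ⟨((starRingEnd 𝕜) (g u) / ((‖g u‖ : ℝ) : 𝕜)) • u, ?_, ?_⟩
    · rw [norm_smul, hu, mul_one, norm_div, RCLike.norm_conj, RCLike.norm_ofReal,
        abs_of_pos hpos, div_self hpos.ne']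
    · have h5 : (starRingEnd 𝕜) (g u) * g u = ((‖g u‖ : ℝ) : 𝕜) ^ 2 := RCLike.conj_mul (g u)
      rw [map_smul, smul_eq_mul, div_mul_eq_mul_div, h5, pow_two, mul_div_assoc, div_self hne,
        mul_one, hgu]

/-- **Main result.** Let `𝕜` be the field of real or complex numbers and `Γ` a set of cardinality
`ℵ₁`. Arbitrarily near to the space `c₀(Γ)` there is a Banach space `E` over `𝕜` in which every
extended biorthogonal system whose functionals lie in the linear span of the norm attaining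
functionals (no condition on the vectors) is countable, and the functionals of the system all vanish
on the image of `c₀(Γ \ B)` for some countable set `B`. In particular every normal extended
biorthogonal system in `E` is countable and not total. -/
theorem result (𝕜 : Type) [RCLike 𝕜] :
    ∃ (Γ : Type) (_ : TopologicalSpace Γ) (_ : DiscreteTopology Γ),
    Cardinal.mk Γ = Cardinal.aleph 1 ∧ ∀ ε : ℝ, 0 < ε →
    ∃ (E : Type) (_ : NormedAddCommGroup E) (_ : NormedSpace 𝕜 E) (_ : CompleteSpace E)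
      (T : C₀(Γ, 𝕜) ≃L[𝕜] E),
      (∀ v, ‖T v‖ ≤ (1 + ε) * ‖v‖ ∧ ‖v‖ ≤ (1 + ε) * ‖T v‖) ∧
      (∀ (I : Type u) (x : I → E) (f : I → (E →L[𝕜] 𝕜)), Biorthogonal x f →
        (∀ i, f i ∈ Submodule.span 𝕜 {g | NormAttaining g}) →
        Countable I ∧ ∃ B : Set Γ, B.Countable ∧
          ∀ v : C₀(Γ, 𝕜), (∀ w ∈ B, v w = 0) → ∀ i, f i (T v) = 0) ∧
      ∀ (I : Type u) (x : I → E) (f : I → (E →L[𝕜] 𝕜)),
        Biorthogonal x f → Normal x f → Countable I ∧ ¬ Total f := by
  classical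
  let W : Type := (Cardinal.aleph 1).ord.ToType
  have hc : ∀ a : W, (Iio a).Countable := by
    intro a
    rw [← Cardinal.le_aleph0_iff_set_countable, ← Cardinal.lt_aleph_one_iff]
    exact Cardinal.mk_Iio_toType_ord_lt a
  have hmk : Cardinal.mk W = Cardinal.aleph 1 := Cardinal.mk_ord_toType _
  have hunc : Uncountable W := by
    rw [← Cardinal.aleph0_lt_mk_iff, hmk]
    exact Cardinal.aleph0_lt_aleph_one
  let _ : TopologicalSpace W := ⊥
  have hdisc : DiscreteTopology W := ⟨rfl⟩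
  obtain ⟨e, he, hcount⟩ := exists_coherent_injections hc
  have hemb : Nonempty (W ↪ (ℕ → Bool)) := by
    rw [← Cardinal.le_def, hmk]
    have h1 : Cardinal.mk (ℕ → Bool) = Cardinal.continuum := by
      simp
    rw [h1]
    exact Cardinal.aleph_one_le_continuum
  obtain ⟨ι⟩ := hemb
  have hT01 : ∀ t ∈ Set.range sp, 0 ≤ t ∧ t ≤ 1 / 2 := by
    rintro _ ⟨x, rfl⟩
    exact ⟨sp_nonneg x, sp_le x⟩
  refine ⟨W, inferInstance, hdisc, hmk, fun ε hε => ?_⟩
  let d : PK 𝕜 W :=
    { e := e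
      t := fun a => sp (ι a)
      he := he
      ht0 := fun a => sp_nonneg _
      ht1 := fun a => sp_le _
      kap := min (1 / 32) (ε / (4 * (1 + ε)))
      hkap0 := lt_min (by norm_num) (by positivity)
      hkap1 := min_le_left _ _ }
  have hk0 : 0 < d.kap := d.hkap0
  have hk1 : d.kap * (4 * (1 + ε)) ≤ ε := by
    have h1 : d.kap ≤ ε / (4 * (1 + ε)) := min_le_right _ _
    rwa [le_div_iff₀ (by positivity)] at h1
  have hmain : ∀ (I : Type u) (x : I → d.SpT) (f : I → (d.SpT →L[𝕜] 𝕜)), Biorthogonal x f →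
        (∀ i, f i ∈ Submodule.span 𝕜 {g | NormAttaining g}) →
        Countable I ∧ ∃ B : Set W, B.Countable ∧
          ∀ v : C₀(W, 𝕜), (∀ w ∈ B, v w = 0) → ∀ i, f i (iso d v) = 0 := by
    intro I x f hbi hf
    have hfs : ∀ i, FinSup d (f i) := fun i =>
      finSup_span d _ (fun g hg => by
        obtain ⟨u, hu1, hu2⟩ := rotate g hg
        exact d.support_functional u g hu1 hu2) (f i) (hf i)
    choose c hcf using hfs
    have hB := countable_support_union hc d hcount superSparse_range_sp hT01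
      (fun a => ⟨ι a, rfl⟩) (sp_injective.comp ι.injective) x f hbi.1 hbi.2 c hcf
    refine ⟨countable_index d x f hbi.1 hbi.2 c hcf hB, ?_⟩
    obtain ⟨δ, hδ⟩ := exists_upperK hc hB
    refine ⟨Iio δ, hc δ, fun v hv i => ?_⟩
    rw [iso_apply, hcf i]
    apply Finset.sum_eq_zero
    intro w hw
    have hlt : w < δ := hδ w (mem_iUnion.mpr ⟨i, hw⟩)
    change (c i) w * d.coord (d.vec v) w = 0
    rw [coord_vec_zero d δ v (fun w hw => hv w hw) w hlt, mul_zero]
  refine ⟨d.SpT, inferInstance, inferInstance, inferInstance, iso d, ?_, hmain, ?_⟩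
  · intro v
    have h1 : ‖iso d v‖ ≤ (1 + 4 * d.kap) * ‖v‖ := d.norm_PhiL_le' v
    have h2 : (1 - 4 * d.kap) * ‖v‖ ≤ ‖iso d v‖ := d.norm_le_PhiL' v
    have hv : 0 ≤ ‖v‖ := norm_nonneg v
    constructor
    · have h3 : 4 * d.kap ≤ ε := by nlinarith
      have h4 : (1 + 4 * d.kap) * ‖v‖ ≤ (1 + ε) * ‖v‖ :=
        mul_le_mul_of_nonneg_right (by linarith) hv
      linarith
    · have h3 : 1 ≤ (1 + ε) * (1 - 4 * d.kap) := by nlinarith
      calc ‖v‖ = 1 * ‖v‖ := (one_mul _).symm
        _ ≤ ((1 + ε) * (1 - 4 * d.kap)) * ‖v‖ := mul_le_mul_of_nonneg_right h3 hv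
        _ = (1 + ε) * ((1 - 4 * d.kap) * ‖v‖) := mul_assoc _ _ _
        _ ≤ (1 + ε) * ‖iso d v‖ := mul_le_mul_of_nonneg_left h2 (by positivity)
  · intro I x f hbi hn
    obtain ⟨hI, B, hB, hker⟩ := hmain I x f hbi (fun i =>
      Submodule.subset_span ⟨x i, hn.1 i, by rw [hbi.1 i, hn.2 i, norm_one]⟩)
    refine ⟨hI, fun htot => ?_⟩
    obtain ⟨a, ha⟩ : ∃ a : W, a ∉ B := by
      by_contra hcon
      push Not at hcon
      exact not_countable_univ (hB.mono (fun a _ => hcon a))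
    have h1 : ∀ i, f i (iso d (PK.single a)) = 0 := by
      apply hker
      intro w hw
      exact PK.single_apply_ne (fun h => ha (h ▸ hw))
    have h2 := htot _ h1
    have h3 : (PK.single a : C₀(W, 𝕜)) = 0 := (iso d).injective (h2.trans (map_zero _).symm)
    have h4 : (PK.single a : C₀(W, 𝕜)) a = 0 := by rw [h3]; rfl
    rw [PK.single_apply_self] at h4
    exact one_ne_zero h4

end Pool.Agent.Results.MP_735d18_an.CountableNormalSystems
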